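import Pool.Agent.Y742.HC.FinL

/-!
# Unirationality of varieties with rational curves through their general points

Let `X` be a variety over any field `k` of characteristic zero, with function field `K`. Suppose

* that `X` has conic fibrations with bases of function fields `M i`, and only the constants are
  algebraic over all the `M i`, or, more generally,
* that there are rational families of rational curves through the general point of `X`
  (`θ i : K → K(t)`, the identity at `t = 0`) whose tangent vector fields `D i` generate, with
  coefficients in `K`, the Lie algebra of all derivations of `K` over `k`.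

Then there is a dense open set `V` such that, for every extension `L` of `k`, if `X` has an
`L`-point in `V`, then `K` embeds in a field of rational functions over `L`; in particular `X` is
`k`-unirational if it has a `k`-point in `V`.
-/

set_option autoImplicit false

namespace Pool.Agent.Results.MP_d5a5f5_ag.ConicFibrations

open AlgebraicGeometry CategoryTheory W560.HP Pool.Agent.Y742.HC
open Pool.Agent.TH178.HI (IsConicOver HasFunctionField)

theorem result (k : Type) [Field k] [CharZero k] (K : Type) [Field K] [Algebra k K]
    (X : Scheme.{0}) (p : X ⟶ Spec (CommRingCat.of k)) [IsIntegral X] [LocallyOfFiniteType p]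
    (hX : HasFunctionField k X p K) (m : ℕ)
    (h : (∃ M : Fin m → IntermediateField k K, (∀ i, IsConicOver (M i)) ∧
        ∀ a : K, (∀ i, IsAlgebraic (M i) a) → a ∈ Set.range (algebraMap k K)) ∨
      ∃ (θ : Fin m → (K →ₐ[k] RatFunc K)) (D : Fin m → Derivation k K K),
        (∀ i, IsMove (θ i) (D i)) ∧
        LieSubalgebra.lieSpan k (Derivation k K K) {E | ∃ i, ∃ c : K, E = c • D i} = ⊤) :
    ∃ V : X.Opens, (V : Set X).Nonempty ∧ ∀ (L : Type) [Field L] [Algebra k L],
      [HasPointIn X p V L, DensePointsOver X p L,
        ∃ n : ℕ, Nonempty (K →ₐ[k] FractionRing (MvPolynomial (Fin n) L))].TFAE := by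
  have hfg := sFgs k X p K hX
  rcases h with ⟨M, hM, hinv⟩ | ⟨θ, D, hθ, hgen⟩
  · exact (goodL_conics hfg M hM hinv).opens X p hX
  · exact (goodL_moves hfg θ D hθ hgen).opens X p hX

end Pool.Agent.Results.MP_d5a5f5_ag.ConicFibrations
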